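import Pool.Agent.Lib.MP_f23337_gt.Main

/-!
# Compactness-like group topologies on pseudocompact abelian groups

Every abelian group that carries a (Hausdorff) pseudocompact group topology carries a (Hausdorff)
group topology with each of the properties (i)-(iv) of the problem; in fact one and the same
topology has all four.
-/

set_option autoImplicit false

namespace Pool.Agent.Results.MP_f23337_gt.PseudocompactStronglyBounded

open Topology

universe u

/-- A group topology on an abelian group: a Hausdorff topology making the group operations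
continuous. -/
def IsGroupTopology (G : Type u) [AddCommGroup G] (t : TopologicalSpace G) : Prop :=
  @IsTopologicalAddGroup G t _ ∧ @T2Space G t

/-- Every continuous real-valued function is bounded. -/
def Pseudocompact (X : Type u) [TopologicalSpace X] : Prop :=
  ∀ f : X → ℝ, Continuous f → ∃ C : ℝ, ∀ x, |f x| ≤ C

/-- The free ultrafilters on `ℕ`, that is, the points of `βℕ ∖ ℕ`. -/
def FreeUltrafilters : Set (Ultrafilter ℕ) := {p | ∀ n : ℕ, p ≠ pure n}

/-- The point `a` is a `p`-limit of the sequence `x`. -/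
def IsPLimit {X : Type u} [TopologicalSpace X] (p : Ultrafilter ℕ) (x : ℕ → X) (a : X) : Prop :=
  ∀ V ∈ 𝓝 a, {n : ℕ | x n ∈ V} ∈ p

/-- A sequence of nonempty open sets. -/
def OpenSequence {X : Type u} [TopologicalSpace X] (U : ℕ → Set X) : Prop :=
  ∀ n, IsOpen (U n) ∧ (U n).Nonempty

/-- (i) Selectively pseudocompact: for every sequence of nonempty open sets some selection has a
`p`-limit for some free ultrafilter `p`. -/
def SelectivelyPseudocompact (X : Type u) [TopologicalSpace X] : Prop :=
  ∀ U : ℕ → Set X, OpenSequence U →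
    ∃ x : ℕ → X, (∀ n, x n ∈ U n) ∧ ∃ p ∈ FreeUltrafilters, ∃ a, IsPLimit p x a

/-- Strongly `p`-pseudocompact: for every sequence of nonempty open sets some selection has a
`p`-limit. -/
def StronglyPPseudocompact (p : Ultrafilter ℕ) (X : Type u) [TopologicalSpace X] : Prop :=
  ∀ U : ℕ → Set X, OpenSequence U →
    ∃ x : ℕ → X, (∀ n, x n ∈ U n) ∧ ∃ a, IsPLimit p x a

/-- Strongly `P`-pseudocompact: strongly `p`-pseudocompact for every `p ∈ P`. -/
def StronglyPseudocompact (P : Set (Ultrafilter ℕ)) (X : Type u) [TopologicalSpace X] : Prop :=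
  ∀ p ∈ P, StronglyPPseudocompact p X

/-- Strongly `P`-bounded: for every sequence of nonempty open sets a single selection has a
`p`-limit for every `p ∈ P`. -/
def StronglyBounded (P : Set (Ultrafilter ℕ)) (X : Type u) [TopologicalSpace X] : Prop :=
  ∀ U : ℕ → Set X, OpenSequence U →
    ∃ x : ℕ → X, (∀ n, x n ∈ U n) ∧ ∀ p ∈ P, ∃ a, IsPLimit p x a

/-- If an abelian group `G` carries a pseudocompact group topology, then it carries a group
topology that is (i) selectively pseudocompact, (ii) strongly `p`-pseudocompact for some free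
ultrafilter `p`, (iii) strongly `(βℕ ∖ ℕ)`-pseudocompact and (iv) strongly
`(βℕ ∖ ℕ)`-bounded. -/
theorem result (G : Type u) [AddCommGroup G]
    (h : ∃ t : TopologicalSpace G, IsGroupTopology G t ∧ @Pseudocompact G t) :
    ∃ t : TopologicalSpace G, IsGroupTopology G t ∧
      @SelectivelyPseudocompact G t ∧
      (∃ p ∈ FreeUltrafilters, @StronglyPPseudocompact p G t) ∧
      @StronglyPseudocompact FreeUltrafilters G t ∧
      @StronglyBounded FreeUltrafilters G t := by
  obtain ⟨t₀, ht₀, hpc⟩ := h
  obtain ⟨t, ht1, ht2, ht3⟩ :=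
    Pool.Agent.MP_f23337_gt.goodGroup_of_pseudocompact G ⟨t₀, ht₀.1, ht₀.2, hpc⟩
  -- a single selection with `p`-limits for all ultrafilters
  have hall : ∀ U : ℕ → Set G, OpenSequence U →
      ∃ x : ℕ → G, (∀ n, x n ∈ U n) ∧ ∀ p : Ultrafilter ℕ, ∃ a, IsPLimit p x a := by
    intro U hU
    obtain ⟨K, hK, hKU⟩ := ht3 U (fun n => (hU n).1) (fun n => (hU n).2)
    choose x hxK hxU using hKU
    refine ⟨x, hxU, fun p => ?_⟩
    have hp : (p.map x : Filter G) ≤ Filter.principal K := by
      rw [Filter.le_principal_iff]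
      change x ⁻¹' K ∈ (p : Filter ℕ)
      exact Filter.mem_of_superset Filter.univ_mem fun n _ => hxK n
    obtain ⟨a, -, ha⟩ := hK.ultrafilter_le_nhds (p.map x) hp
    exact ⟨a, fun V hV => ha hV⟩
  have hfree : Filter.hyperfilter ℕ ∈ FreeUltrafilters := by
    intro n hn
    have h1 : ({n}ᶜ : Set ℕ) ∈ (Filter.hyperfilter ℕ) :=
      Filter.compl_mem_hyperfilter_of_finite (Set.finite_singleton n)
    rw [hn] at h1
    exact (h1 : n ∈ ({n}ᶜ : Set ℕ)) rfl
  refine ⟨t, ⟨ht1, ht2⟩, ?_, ?_, ?_, ?_⟩
  · intro U hU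
    obtain ⟨x, hx, hlim⟩ := hall U hU
    exact ⟨x, hx, _, hfree, hlim _⟩
  · refine ⟨_, hfree, fun U hU => ?_⟩
    obtain ⟨x, hx, hlim⟩ := hall U hU
    exact ⟨x, hx, hlim _⟩
  · intro p _ U hU
    obtain ⟨x, hx, hlim⟩ := hall U hU
    exact ⟨x, hx, hlim _⟩
  · intro U hU
    obtain ⟨x, hx, hlim⟩ := hall U hU
    exact ⟨x, hx, fun p _ => hlim p⟩

end Pool.Agent.Results.MP_f23337_gt.PseudocompactStronglyBounded
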